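import Pool.Agent.R905.GO.Plain

/-!
# Gauss–Manin connections of families of smooth affine cubic hypersurfaces

`K` is the function field of `Y` over `ℂ`, `Λ = ℂ`, and `Ω` is the set of the following operators: the
multiplications by the elements of `K` and the covariant derivatives along the derivations of `K` over
`ℂ`. So the subspaces of a flat bundle over `K` which are stable under `Ω` are its flat subbundles.
`T.H X n` is the algebraic de Rham cohomology with compact supports of a `K`-scheme `X`, with its
Gauss–Manin connection. An irreducible flat bundle (regular singular) on `Y` is determined by its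
generic fibre `σ`; it is geometric if and only if `σ` is a subquotient of the cohomology of a smooth
proper `K`-scheme. (3) below says that it is, over a dense open subset, a subquotient of the
cohomology with compact supports of a family of smooth affine cubic hypersurfaces.
-/

set_option autoImplicit false

open AlgebraicGeometry Pool.Agent.R904.CU Pool.Agent.R904.EL Pool.Agent.R905.GO

namespace Pool.Agent.Results.MP_e3793a_ag.CubicsAndArrangements

/-- Let `S` be a class of schemes such as the smooth projective `K`-schemes. For a simple object `σ`
(a nonzero vector space with operators and without stable subspaces) the following are equivalent: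
`σ` is a subquotient of the cohomology with compact supports of (1) some scheme in `S`; (2) some
separated scheme of finite type over `K`; (3) some smooth hypersurface of degree at most three in an
affine space over `K`; (4) the complement `a ≠ 0` of a hypersurface in an affine space over `K`, for
some product `a` of polynomials of the forms `xᵢ xⱼ - xₖ`, `xᵢ + xⱼ - xₖ` and `xᵢ - c` with `c` in
`K`. -/
theorem result (K Λ Ω : Type) [Field K] [Field Λ] (T : Cohomology K Λ Ω)
    (hL : T.LongExact) (hB : T.PlainBundle) (S : SchProp K) (hS : Pool.Agent.R905.WM.Models S)
    (W : Type) [AddCommGroup W] [Module Λ W] (σ : Ω → Module.End Λ W) (hσ : Simple σ) :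
    [∃ X f, SepFinType K X f ∧ S X f ∧ T.PlainOccursIn σ X f,
     ∃ X f, SepFinType K X f ∧ T.PlainOccursIn σ X f,
     ∃ (ι : Type) (_ : Fintype ι) (F : MvPolynomial ι K), IsSmoothCubic F ∧
       T.PlainOccursIn σ _ (hyp F),
     ∃ (ι : Type) (_ : Fintype ι) (a : MvPolynomial ι K), a ∈ elemProds (Set.univ : Set K) ι ∧
       T.PlainOccursIn σ _ (complHom a)].TFAE :=
  Cohomology.plain_models hL hB hσ hS

end Pool.Agent.Results.MP_e3793a_ag.CubicsAndArrangements
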