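import Pool.Agent.R484.CQc

/-!
# MP_e3793a_ag: quasi-geometric flat bundles, reduction to basic varieties and fibrations

`CSetting K` (module `R484.CQb`, `K` is the field of complex numbers) records the smooth connected
varieties over the field of algebraic numbers, their topological fundamental groups, Belyi's
theorem and Noether normalisation, the residual finiteness of linear groups, the formal properties
of quasi-geometric flat bundles and of those coming from geometry, and Simpson's theorem that
quasi-geometric bundles of rank one have finite order.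

`Conj G X` is question Q1 for `X` and irreducible bundles.
-/

namespace Pool.Agent.Results.MP_e3793a_ag.ReductionAndFibrations

open Pool.Agent.R484.GO Pool.Agent.R484.RF Pool.Agent.R484.CQ

theorem result {K : Type} [Field K] [IsAlgClosed K] (G : CSetting K) :
    -- (1) Q1 for all varieties of dimension `n` is equivalent to Q1 for the basic ones
    (∀ n, 1 ≤ n → ((∀ X, G.dim X = n → Conj G X) ↔
      ∀ L, G.Basic L → G.dim L = n → Conj G L)) ∧
    -- (2) Q1 for the line without three points implies Q1 for the class generated from curves
    ((∀ L, G.Basic L → G.dim L = 1 → Conj G L) →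
      ∀ X, Nice G (fun Y => G.dim Y ≤ 1) X → Conj G X) ∧
    -- (3) without hypothesis, Q1 holds for the class generated from the points
    (∀ X, Nice G (fun Y => G.dim Y = 0) X → Conj G X) ∧
    -- (4) quasi-geometric irreducible bundles with virtually abelian monodromy have finite
    -- monodromy and come from geometry
    (∀ (X : G.Var) (V : Type) [AddCommGroup V] [Module K V] [FiniteDimensional K V]
      (ρ : Representation K (G.P X) V), Irr ρ → G.QG X ρ → VirtAb ρ ⊤ →
      FinMon ρ ∧ G.Geo X ρ) ∧
    -- (5) single bundles on a fibration over a base for which Q1 holds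
    (∀ {X S : G.Var} (f : G.Dom X S), Function.Surjective (G.map f) → Conj G S →
      ∀ (V : Type) [AddCommGroup V] [Module K V] [FiniteDimensional K V]
        (ρ : Representation K (G.P X) V), Irr ρ → G.QG X ρ →
        VirtAb ρ (G.map f).ker ∨ GeoAlong G f ρ → G.Geo X ρ) := by
  have h1 : ∀ n, 1 ≤ n → ((∀ X, G.dim X = n → Conj G X) ↔
      ∀ L, G.Basic L → G.dim L = n → Conj G L) := fun n hn =>
    ⟨fun h L _ hL => h L hL, fun h X hX => conj_basic G (hX ▸ hn) fun L hL hd =>
      h L hL (hd.trans hX)⟩
  refine ⟨h1, fun h => nice_conj G _ fun X hX => ?_, nice_conj G _ fun X hX => conj_point G hX,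
    ?_, ?_⟩
  · rcases Nat.eq_zero_or_pos (G.dim X) with h0 | h0
    · exact conj_point G h0
    · exact (h1 1 le_rfl).2 h X (le_antisymm hX h0)
  · intro X V _ _ _ ρ hi hq ⟨M, hM, _, hfin, hab⟩
    rw [Subgroup.relIndex_top_right] at hfin
    have h2 := finite_of_abelian G ρ hi hq M ⟨hfin⟩ hab
    exact ⟨h2, G.geo_finite X ρ h2⟩
  · intro X S f hf hS V _ _ _ ρ hi hq h
    rcases h with ⟨M, hM, _, hfin, hab⟩ | ⟨A, _, _, _, α, T, hα, hT0, hT⟩
    · exact fib_one' G f hf hS ρ hi hq M hfin hab
    · exact crit' G f hf hS ρ hi hq α hα T hT0 hT

end Pool.Agent.Results.MP_e3793a_ag.ReductionAndFibrations
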